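import Mathlib

/-!
# Uniqueness up to scaling for the power-bias fixed point equation

Proof: pass to the logarithm. For a solution let `q` be the quantile function of `log X`, and
`b (s) = ∑ ψ_k e^{k q(s)} / E X^k`. Then `q' = 1 / P` with `P (s) = w ∫_s^1 (b - 1)`. For two
solutions put `Δ = q̃ - q`, `D = b - b̃` and `G = P - P̃ = w ∫_s^1 D`. Then `Δ' = G / (P P̃)` and
`K (s) = arctan (Δ (s)) G (s) + w ∫_0^s arctan (Δ) D` has derivative `G² / ((1 + Δ²) P P̃) ≥ 0`, it
vanishes at `0`, and `K (1) = w ∑ ψ_k ∫ arctan (Δ) (p_k - q_k) ≤ 0`, since `p_k - q_k ≥ 0` if and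
only if `Δ` is below a constant and `∫ (p_k - q_k) = 0`. So `G = 0` and `Δ` is constant.
-/

open MeasureTheory ProbabilityTheory Filter Topology
open scoped ENNReal

namespace Pool.Agent.Results.MP_ec0ea5_pr.UniqueUpToScaling

/-- The law `Beta (w, 1)`: it has the density `w v^(w-1)` on `(0, 1)`. -/
noncomputable def betaLaw (w : ℝ) : Measure ℝ :=
  (volume.restrict (Set.Ioo 0 1)).withDensity fun v => ENNReal.ofReal (w * v ^ (w - 1))

/-- The moment `E X^k` of a random variable with law `μ`. -/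
noncomputable def moment (μ : Measure ℝ) (k : ℕ) : ℝ := ∫ x, x ^ k ∂μ

/-- The `ψ`-power-bias of the law `μ`: the measure `∑ ψ_k x^k μ(dx) / E X^k`. -/
noncomputable def powerBias (ψ : ℕ → ℝ) (μ : Measure ℝ) : Measure ℝ :=
  Measure.sum fun k =>
    ENNReal.ofReal (ψ k / moment μ k) • μ.withDensity fun x => ENNReal.ofReal (x ^ k)

/-- `μ` is the law of a positive random variable `X` with `E X^k < ∞` for all `k` with `ψ_k > 0`,
which solves the fixed point equation: `X` has the same law as `V X^(ψ)`, where `V` has the law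
`Beta (w, 1)` and is independent of `X^(ψ)`. -/
structure IsSolution (w : ℝ) (ψ : ℕ → ℝ) (μ : Measure ℝ) : Prop where
  prob : IsProbabilityMeasure μ
  pos : μ (Set.Iic 0) = 0
  moments : ∀ k, 0 < ψ k → Integrable (fun x => x ^ k) μ
  fixed : μ = ((betaLaw w).prod (powerBias ψ μ)).map fun p => p.1 * p.2

/-! ### The logarithmic form -/

/-- The exponential moment. -/
noncomputable def em (m : Measure ℝ) (k : ℕ) : ℝ := ∫ y, Real.exp (k * y) ∂m

/-- The density of the power bias. -/
noncomputable def Be (ψ : ℕ → ℝ) (m : Measure ℝ) (y : ℝ) : ℝ≥0∞ :=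
  ∑' k, ENNReal.ofReal (ψ k / em m k * Real.exp (k * y))

/-- The function `(1 - e^x)₊`. -/
noncomputable def gg (x : ℝ) : ℝ := 1 - Real.exp (min x 0)

/-- The logarithmic form of the fixed point equation. -/
structure LogSol (w : ℝ) (ψ : ℕ → ℝ) (m : Measure ℝ) : Prop where
  prob : IsProbabilityMeasure m
  intg : ∀ k, 0 < ψ k → Integrable (fun y => Real.exp (k * y)) m
  tail : ∀ τ, m (Set.Ioi τ) = ∫⁻ y, ENNReal.ofReal (gg (w * (τ - y))) * Be ψ m y ∂m
  w_pos : 0 < w
  psi_zero : ψ 0 = 0
  psi_nonneg : ∀ k, 0 ≤ ψ k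
  psi_sum : HasSum ψ 1

lemma exp_lip {a b : ℝ} (ha : a ≤ 0) (hb : b ≤ 0) : |Real.exp a - Real.exp b| ≤ |a - b| := by
  have key : ∀ x y : ℝ, x ≤ y → y ≤ 0 → |Real.exp x - Real.exp y| ≤ |x - y| := by
    intro x y hxy hy
    have h1 : Real.exp x ≤ Real.exp y := Real.exp_le_exp.2 hxy
    rw [abs_sub_comm, abs_of_nonneg (by linarith), abs_sub_comm, abs_of_nonneg (by linarith)]
    have h2 : Real.exp y ≤ 1 := Real.exp_le_one_iff.2 hy
    have h3 : x - y + 1 ≤ Real.exp (x - y) := Real.add_one_le_exp _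
    have h4 : Real.exp x = Real.exp y * Real.exp (x - y) := by
      rw [← Real.exp_add]
      ring_nf
    have h5 : Real.exp y * (x - y + 1) ≤ Real.exp y * Real.exp (x - y) :=
      mul_le_mul_of_nonneg_left h3 (Real.exp_pos y).le
    nlinarith [Real.exp_pos y]
  rcases le_total a b with h | h
  · exact key a b h hb
  · rw [abs_sub_comm, abs_sub_comm a]
    exact key b a h ha

lemma gg_nonneg (x : ℝ) : 0 ≤ gg x := by
  unfold gg
  have := Real.exp_le_one_iff.2 (min_le_right x 0)
  linarith

lemma gg_le_one (x : ℝ) : gg x ≤ 1 := by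
  unfold gg
  linarith [Real.exp_pos (min x 0)]

lemma gg_lip (x y : ℝ) : |gg x - gg y| ≤ |x - y| := by
  unfold gg
  have h1 := exp_lip (min_le_right x 0) (min_le_right y 0)
  have h2 : |min x 0 - min y 0| ≤ |x - y| := by
    have := abs_min_sub_min_le_max x 0 y 0
    simpa using this
  have h3 : 1 - Real.exp (min x 0) - (1 - Real.exp (min y 0)) =
      -(Real.exp (min x 0) - Real.exp (min y 0)) := by ring
  rw [h3, abs_neg]
  exact h1.trans h2

lemma gg_of_nonneg {x : ℝ} (h : 0 ≤ x) : gg x = 0 := by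
  unfold gg
  rw [min_eq_right h, Real.exp_zero, sub_self]

lemma gg_of_neg {x : ℝ} (h : x ≤ 0) : gg x = 1 - Real.exp x := by
  unfold gg
  rw [min_eq_left h]

lemma continuous_gg : Continuous gg := by
  unfold gg
  fun_prop

section LogSol

variable {w : ℝ} {ψ : ℕ → ℝ} {m : Measure ℝ}

/-- The real-valued density of the power bias. -/
noncomputable def BB (ψ : ℕ → ℝ) (m : Measure ℝ) (y : ℝ) : ℝ := (Be ψ m y).toReal

lemma measurable_Be (ψ : ℕ → ℝ) (m : Measure ℝ) : Measurable (Be ψ m) := by
  unfold Be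
  refine Measurable.tsum fun k => ?_
  fun_prop

lemma measurable_BB (ψ : ℕ → ℝ) (m : Measure ℝ) : Measurable (BB ψ m) :=
  (measurable_Be ψ m).ennreal_toReal

lemma em_pos (h : LogSol w ψ m) {k : ℕ} (hk : 0 < ψ k) : 0 < em m k := by
  have := h.prob
  unfold em
  exact integral_exp_pos (h.intg k hk)

lemma lintegral_term (h : LogSol w ψ m) (k : ℕ) :
    ∫⁻ y, ENNReal.ofReal (ψ k / em m k * Real.exp (k * y)) ∂m = ENNReal.ofReal (ψ k) := by
  rcases (h.psi_nonneg k).eq_or_lt with hk | hk
  · rw [← hk]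
    simp
  · have he := em_pos h hk
    rw [← ofReal_integral_eq_lintegral_ofReal ((h.intg k hk).const_mul _)
      (Eventually.of_forall fun y => by positivity), integral_const_mul]
    congr 1
    show ψ k / em m k * em m k = ψ k
    field_simp

lemma lintegral_Be (h : LogSol w ψ m) : ∫⁻ y, Be ψ m y ∂m = 1 := by
  unfold Be
  rw [lintegral_tsum fun k => by fun_prop]
  simp only [lintegral_term h]
  rw [← ENNReal.ofReal_tsum_of_nonneg h.psi_nonneg h.psi_sum.summable, h.psi_sum.tsum_eq,
    ENNReal.ofReal_one]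

lemma Be_ae_lt (h : LogSol w ψ m) : ∀ᵐ y ∂m, Be ψ m y < ∞ :=
  ae_lt_top (measurable_Be ψ m) (by rw [lintegral_Be h]; exact ENNReal.one_ne_top)

lemma integrable_BB (h : LogSol w ψ m) : Integrable (BB ψ m) m :=
  integrable_toReal_of_lintegral_ne_top (measurable_Be ψ m).aemeasurable
    (by rw [lintegral_Be h]; exact ENNReal.one_ne_top)

lemma integral_BB (h : LogSol w ψ m) : ∫ y, BB ψ m y ∂m = 1 := by
  unfold BB
  rw [integral_toReal (measurable_Be ψ m).aemeasurable (Be_ae_lt h), lintegral_Be h]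
  rfl

lemma BB_nonneg (y : ℝ) : 0 ≤ BB ψ m y := ENNReal.toReal_nonneg

lemma exists_psi_pos (h : LogSol w ψ m) : ∃ k, 0 < ψ k := by
  by_contra hcon
  push Not at hcon
  have : ψ = fun _ => 0 := funext fun k => le_antisymm (hcon k) (h.psi_nonneg k)
  have h1 := h.psi_sum
  rw [this] at h1
  exact zero_ne_one (hasSum_zero.unique h1)

lemma BB_ae_pos (h : LogSol w ψ m) : ∀ᵐ y ∂m, 0 < BB ψ m y := by
  filter_upwards [Be_ae_lt h] with y hy
  obtain ⟨k, hk⟩ := exists_psi_pos h
  refine ENNReal.toReal_pos ?_ hy.ne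
  have h1 : 0 < ENNReal.ofReal (ψ k / em m k * Real.exp (k * y)) := by
    have := em_pos h hk
    rw [ENNReal.ofReal_pos]
    positivity
  exact (h1.trans_le (ENNReal.le_tsum k)).ne'

/-- The tail in real form. -/
lemma tail_real (h : LogSol w ψ m) (τ : ℝ) :
    m.real (Set.Ioi τ) = ∫ y, gg (w * (τ - y)) * BB ψ m y ∂m := by
  rw [integral_eq_lintegral_of_nonneg_ae
    (Eventually.of_forall fun y => mul_nonneg (gg_nonneg _) (BB_nonneg y))
    (((continuous_gg.measurable.comp (by fun_prop)).mul (measurable_BB ψ m)).aestronglyMeasurable)]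
  unfold Measure.real
  rw [h.tail τ]
  congr 1
  refine lintegral_congr_ae ?_
  filter_upwards [Be_ae_lt h] with y hy
  rw [ENNReal.ofReal_mul (gg_nonneg _)]
  congr 1
  exact (ENNReal.ofReal_toReal hy.ne).symm

lemma aesm (τ : ℝ) : AEStronglyMeasurable (fun y => gg (w * (τ - y)) * BB ψ m y) m :=
  ((continuous_gg.measurable.comp (by fun_prop)).mul (measurable_BB ψ m)).aestronglyMeasurable

lemma integrable_tail (h : LogSol w ψ m) (τ : ℝ) :
    Integrable (fun y => gg (w * (τ - y)) * BB ψ m y) m := by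
  refine (integrable_BB h).mono (aesm τ) (Eventually.of_forall fun y => ?_)
  rw [norm_mul, Real.norm_of_nonneg (gg_nonneg _)]
  have := mul_le_mul_of_nonneg_right (gg_le_one (w * (τ - y))) (norm_nonneg (BB ψ m y))
  linarith

lemma gg_lip' (h : LogSol w ψ m) (τ τ' y : ℝ) :
    |gg (w * (τ - y)) * BB ψ m y - gg (w * (τ' - y)) * BB ψ m y| ≤ w * BB ψ m y * |τ - τ'| := by
  rw [← sub_mul, abs_mul, abs_of_nonneg (BB_nonneg y)]
  have h1 := gg_lip (w * (τ - y)) (w * (τ' - y))
  have h2 : w * (τ - y) - w * (τ' - y) = w * (τ - τ') := by ring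
  rw [h2, abs_mul, abs_of_pos h.w_pos] at h1
  have := mul_le_mul_of_nonneg_right h1 (BB_nonneg (ψ := ψ) (m := m) y)
  linarith

/-- The tail is Lipschitz continuous. -/
lemma tail_lip (h : LogSol w ψ m) (τ τ' : ℝ) :
    |m.real (Set.Ioi τ) - m.real (Set.Ioi τ')| ≤ w * |τ - τ'| := by
  rw [tail_real h, tail_real h, ← integral_sub (integrable_tail h τ) (integrable_tail h τ')]
  calc |∫ y, gg (w * (τ - y)) * BB ψ m y - gg (w * (τ' - y)) * BB ψ m y ∂m|
      ≤ ∫ y, |gg (w * (τ - y)) * BB ψ m y - gg (w * (τ' - y)) * BB ψ m y| ∂m :=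
        abs_integral_le_integral_abs
    _ ≤ ∫ y, w * BB ψ m y * |τ - τ'| ∂m := by
        refine integral_mono ((integrable_tail h τ).sub (integrable_tail h τ')).abs
          (((integrable_BB h).const_mul w).mul_const _) fun y => gg_lip' h τ τ' y
    _ = w * |τ - τ'| := by
        rw [integral_mul_const, integral_const_mul, integral_BB h, mul_one]

lemma no_atom (h : LogSol w ψ m) (τ : ℝ) : m {τ} = 0 := by
  have := h.prob
  have h1 : ∀ ε : ℝ, 0 < ε → m.real {τ} ≤ w * ε := by
    intro ε hε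
    have h2 : m.real {τ} + m.real (Set.Ioi τ) ≤ m.real (Set.Ioi (τ - ε)) := by
      rw [← measureReal_union (by simp) measurableSet_Ioi]
      refine measureReal_mono ?_
      rintro x (hx | hx)
      · rw [Set.mem_singleton_iff.1 hx]
        exact Set.mem_Ioi.2 (by linarith)
      · exact Set.mem_Ioi.2 (by linarith [Set.mem_Ioi.1 hx])
    have h3 := tail_lip h (τ - ε) τ
    have h4 : |τ - ε - τ| = ε := by
      rw [show τ - ε - τ = -ε by ring, abs_neg, abs_of_pos hε]
    rw [h4] at h3
    have := (abs_le.1 h3).2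
    linarith
  have h2 : m.real {τ} ≤ 0 := by
    refine le_of_forall_pos_le_add fun ε hε => ?_
    have h3 := h1 (ε / w) (div_pos hε h.w_pos)
    have h4 : w * (ε / w) = ε := by
      have := h.w_pos.ne'
      field_simp
    linarith
  have h3 : m.real {τ} = 0 := le_antisymm h2 measureReal_nonneg
  rwa [measureReal_eq_zero_iff] at h3

/-- The density of `m`. -/
noncomputable def dens (w : ℝ) (ψ : ℕ → ℝ) (m : Measure ℝ) (τ : ℝ) : ℝ :=
  ∫ y, Set.indicator (Set.Ioi τ) (fun y => w * Real.exp (w * (τ - y)) * BB ψ m y) y ∂m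

lemma hasDerivAt_tail (h : LogSol w ψ m) (τ : ℝ) :
    HasDerivAt (fun τ => m.real (Set.Ioi τ)) (-dens w ψ m τ) τ := by
  have key := hasDerivAt_integral_of_dominated_loc_of_lip (μ := m) (𝕜 := ℝ)
    (F := fun τ y => gg (w * (τ - y)) * BB ψ m y) (x₀ := τ) (s := Set.univ)
    (F' := fun y => -Set.indicator (Set.Ioi τ)
      (fun y => w * Real.exp (w * (τ - y)) * BB ψ m y) y)
    (bound := fun y => w * BB ψ m y) univ_mem (Eventually.of_forall fun τ => aesm τ)
    (integrable_tail h τ) ?_ ?_ ((integrable_BB h).const_mul w) ?_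
  · have e : (fun τ => m.real (Set.Ioi τ)) = fun τ => ∫ y, gg (w * (τ - y)) * BB ψ m y ∂m :=
      funext fun τ => tail_real h τ
    rw [e]
    have h2 := key.2
    rw [integral_neg] at h2
    exact h2
  · refine (Measurable.indicator ?_ measurableSet_Ioi).neg.aestronglyMeasurable
    exact (by fun_prop : Measurable fun y : ℝ => w * Real.exp (w * (τ - y))).mul
      (measurable_BB ψ m)
  · refine Eventually.of_forall fun y => ?_
    refine LipschitzWith.lipschitzOnWith (LipschitzWith.of_dist_le_mul fun a b => ?_)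
    rw [Real.dist_eq, Real.dist_eq]
    have h1 := gg_lip' h a b y
    have h2 : ((Real.nnabs (w * BB ψ m y) : NNReal) : ℝ) = w * BB ψ m y := by
      rw [Real.coe_nnabs, abs_of_nonneg (mul_nonneg h.w_pos.le (BB_nonneg y))]
    rw [h2]
    exact h1
  · have hne : ∀ᵐ y ∂m, y ≠ τ := by
      have := no_atom h τ
      rw [ae_iff]
      simpa using this
    filter_upwards [hne] with y hy
    rcases lt_or_gt_of_ne hy with hlt | hgt
    · rw [Set.indicator_of_notMem (by simpa using hlt.le), neg_zero]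
      have h1 : (fun t => gg (w * (t - y)) * BB ψ m y) =ᶠ[𝓝 τ] fun _ => 0 := by
        filter_upwards [eventually_gt_nhds hlt] with t ht
        rw [gg_of_nonneg (mul_nonneg h.w_pos.le (by linarith)), zero_mul]
      exact (hasDerivAt_const τ (0 : ℝ)).congr_of_eventuallyEq h1
    · rw [Set.indicator_of_mem (Set.mem_Ioi.2 hgt)]
      have h1 : (fun t => gg (w * (t - y)) * BB ψ m y) =ᶠ[𝓝 τ]
          fun t => (1 - Real.exp (w * (t - y))) * BB ψ m y := by
        filter_upwards [eventually_lt_nhds hgt] with t ht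
        rw [gg_of_neg (mul_nonpos_of_nonneg_of_nonpos h.w_pos.le (by linarith))]
      have h2 : HasDerivAt (fun t => (1 - Real.exp (w * (t - y))) * BB ψ m y)
          (-(w * Real.exp (w * (τ - y)) * BB ψ m y)) τ := by
        have h3 : HasDerivAt (fun t => w * (t - y)) w τ := by
          simpa using ((hasDerivAt_id τ).sub_const y).const_mul w
        have h4 := (h3.exp.const_sub 1).mul_const (BB ψ m y)
        refine h4.congr_deriv ?_
        ring
      exact h2.congr_of_eventuallyEq h1

lemma integrable_dens (h : LogSol w ψ m) (τ : ℝ) : Integrable (Set.indicator (Set.Ioi τ)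
    (fun y => w * Real.exp (w * (τ - y)) * BB ψ m y)) m := by
  refine ((integrable_BB h).const_mul w).mono ?_ (Eventually.of_forall fun y => ?_)
  · refine (Measurable.indicator ?_ measurableSet_Ioi).aestronglyMeasurable
    exact (by fun_prop : Measurable fun y : ℝ => w * Real.exp (w * (τ - y))).mul
      (measurable_BB ψ m)
  · have hw := h.w_pos
    rw [Real.norm_of_nonneg (mul_nonneg hw.le (BB_nonneg y))]
    by_cases hy : y ∈ Set.Ioi τ
    · rw [Set.indicator_of_mem hy, Real.norm_of_nonneg (by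
        have := BB_nonneg (ψ := ψ) (m := m) y
        positivity)]
      have h1 : Real.exp (w * (τ - y)) ≤ 1 := Real.exp_le_one_iff.2
        (mul_nonpos_of_nonneg_of_nonpos hw.le (by linarith [Set.mem_Ioi.1 hy]))
      have h2 := mul_le_mul_of_nonneg_left h1 (mul_nonneg hw.le (BB_nonneg (ψ := ψ) (m := m) y))
      linarith
    · rw [Set.indicator_of_notMem hy, norm_zero]
      exact mul_nonneg hw.le (BB_nonneg y)

/-- The density as a tail integral. -/
lemma dens_eq (h : LogSol w ψ m) (τ : ℝ) :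
    dens w ψ m τ = w * ∫ y in Set.Ioi τ, (BB ψ m y - 1) ∂m := by
  have := h.prob
  have h1 : dens w ψ m τ = w * ∫ y, Set.indicator (Set.Ioi τ)
      (fun y => Real.exp (w * (τ - y)) * BB ψ m y) y ∂m := by
    unfold dens
    rw [← integral_const_mul]
    congr 1
    funext y
    by_cases hy : y ∈ Set.Ioi τ
    · rw [Set.indicator_of_mem hy, Set.indicator_of_mem hy]
      ring
    · rw [Set.indicator_of_notMem hy, Set.indicator_of_notMem hy, mul_zero]
  rw [h1]
  congr 1
  rw [integral_sub (integrable_BB h).integrableOn (integrable_const 1).integrableOn]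
  have h2 : ∫ _ in Set.Ioi τ, (1 : ℝ) ∂m = m.real (Set.Ioi τ) := by
    simp
  rw [h2, tail_real h, ← integral_indicator measurableSet_Ioi, eq_sub_iff_add_eq, ← integral_add]
  · congr 1
    funext y
    by_cases hy : y ∈ Set.Ioi τ
    · rw [Set.indicator_of_mem hy, Set.indicator_of_mem hy, gg_of_neg
        (mul_nonpos_of_nonneg_of_nonpos h.w_pos.le (by linarith [Set.mem_Ioi.1 hy]))]
      ring
    · rw [Set.indicator_of_notMem hy, Set.indicator_of_notMem hy, gg_of_nonneg
        (mul_nonneg h.w_pos.le (by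
          have : ¬ τ < y := hy
          linarith))]
      ring
  · have h3 := (integrable_dens h τ).const_mul w⁻¹
    refine h3.congr (Eventually.of_forall fun y => ?_)
    by_cases hy : y ∈ Set.Ioi τ
    · simp only [Set.indicator_of_mem hy]
      have := h.w_pos.ne'
      field_simp
    · simp only [Set.indicator_of_notMem hy, mul_zero]
  · exact integrable_tail h τ

/-- The density is positive below the right end of the support. -/
lemma dens_pos (h : LogSol w ψ m) {τ : ℝ} (hτ : 0 < m (Set.Ioi τ)) : 0 < dens w ψ m τ := by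
  unfold dens
  have hnn : ∀ y, 0 ≤ Set.indicator (Set.Ioi τ)
      (fun y => w * Real.exp (w * (τ - y)) * BB ψ m y) y := by
    intro y
    refine Set.indicator_nonneg (fun y _ => ?_) y
    have := BB_nonneg (ψ := ψ) (m := m) y
    have := h.w_pos
    positivity
  rw [integral_pos_iff_support_of_nonneg hnn (integrable_dens h τ)]
  refine hτ.trans_le (measure_mono_ae ?_)
  filter_upwards [BB_ae_pos h] with y hy hy2
  have hw := h.w_pos
  show Set.indicator (Set.Ioi τ) (fun y => w * Real.exp (w * (τ - y)) * BB ψ m y) y ≠ 0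
  rw [Set.indicator_of_mem (show y ∈ Set.Ioi τ from hy2)]
  positivity

/-! ### The quantile function -/

/-- The distribution function. -/
noncomputable def FF (m : Measure ℝ) (τ : ℝ) : ℝ := m.real (Set.Iic τ)

lemma FF_eq (h : LogSol w ψ m) (τ : ℝ) : FF m τ = 1 - m.real (Set.Ioi τ) := by
  have := h.prob
  have h1 := probReal_compl_eq_one_sub (μ := m) (s := Set.Ioi τ) measurableSet_Ioi
  rw [Set.compl_Ioi] at h1
  exact h1

lemma hasDerivAt_FF (h : LogSol w ψ m) (τ : ℝ) : HasDerivAt (FF m) (dens w ψ m τ) τ := by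
  have e : FF m = fun τ => 1 - m.real (Set.Ioi τ) := funext (FF_eq h)
  rw [e]
  have h1 := (hasDerivAt_tail h τ).const_sub 1
  rwa [neg_neg] at h1

lemma continuous_FF (h : LogSol w ψ m) : Continuous (FF m) :=
  continuous_iff_continuousAt.2 fun τ => (hasDerivAt_FF h τ).continuousAt

lemma monotone_FF (h : LogSol w ψ m) : Monotone (FF m) := by
  have := h.prob
  exact fun a b hab => measureReal_mono (Set.Iic_subset_Iic.2 hab)

lemma FF_nonneg (τ : ℝ) : 0 ≤ FF m τ := measureReal_nonneg

lemma FF_le_one (h : LogSol w ψ m) (τ : ℝ) : FF m τ ≤ 1 := by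
  have := h.prob
  exact measureReal_le_one

lemma exists_FF_eq (h : LogSol w ψ m) {s : ℝ} (hs : s ∈ Set.Ioo (0 : ℝ) 1) : ∃ τ, FF m τ = s := by
  have := h.prob
  have e : ∀ τ, cdf m τ = FF m τ := cdf_eq_real m
  have h0 := (tendsto_cdf_atBot m).eventually_lt_const hs.1
  have h1 := (tendsto_cdf_atTop m).eventually_const_lt hs.2
  obtain ⟨a, ha⟩ := h0.exists
  obtain ⟨b, hb⟩ := h1.exists
  rw [e] at ha hb
  exact mem_range_of_exists_le_of_exists_ge (continuous_FF h) ⟨a, ha.le⟩ ⟨b, hb.le⟩

lemma measure_Ioi_pos (h : LogSol w ψ m) {τ : ℝ} (hτ : FF m τ < 1) : 0 < m (Set.Ioi τ) := by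
  have := h.prob
  rw [FF_eq h] at hτ
  have h1 : 0 < m.real (Set.Ioi τ) := by linarith
  exact (ENNReal.toReal_pos_iff.1 h1).1

lemma FF_inj (h : LogSol w ψ m) {τ τ' : ℝ} (hlt : τ < τ') (hF : FF m τ < 1) :
    FF m τ < FF m τ' := by
  refine lt_of_le_of_ne (monotone_FF h hlt.le) fun heq => ?_
  obtain ⟨c, hc, hc0⟩ := exists_hasDerivAt_eq_zero hlt (continuous_FF h).continuousOn heq
    (fun x _ => hasDerivAt_FF h x)
  have h1 : FF m c < 1 := by
    have := monotone_FF h hc.2.le
    rw [← heq] at this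
    exact this.trans_lt hF
  exact (dens_pos h (measure_Ioi_pos h h1)).ne' hc0

/-- The quantile function. -/
noncomputable def qq (m : Measure ℝ) : ℝ → ℝ := Function.invFun (FF m)

lemma FF_qq (h : LogSol w ψ m) {s : ℝ} (hs : s ∈ Set.Ioo (0 : ℝ) 1) : FF m (qq m s) = s :=
  Function.invFun_eq (exists_FF_eq h hs)

lemma qq_FF (h : LogSol w ψ m) {τ : ℝ} (hτ : FF m τ ∈ Set.Ioo (0 : ℝ) 1) : qq m (FF m τ) = τ := by
  have h1 := FF_qq h hτ
  rcases lt_trichotomy (qq m (FF m τ)) τ with h2 | h2 | h2
  · have := FF_inj h h2 (by rw [h1]; exact hτ.2)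
    linarith
  · exact h2
  · have := FF_inj h h2 hτ.2
    linarith

lemma qq_lt_iff (h : LogSol w ψ m) {s : ℝ} (hs : s ∈ Set.Ioo (0 : ℝ) 1) (τ : ℝ) :
    qq m s ≤ τ ↔ s ≤ FF m τ := by
  have h1 := FF_qq h hs
  constructor
  · intro h2
    rw [← h1]
    exact monotone_FF h h2
  · intro h2
    by_contra hcon
    push Not at hcon
    rcases lt_or_ge (FF m τ) 1 with h3 | h3
    · have := FF_inj h hcon h3
      linarith
    · have := monotone_FF h hcon.le
      rw [h1] at this
      linarith [hs.2]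

lemma qq_strictMono (h : LogSol w ψ m) : StrictMonoOn (qq m) (Set.Ioo 0 1) := by
  intro s hs s' hs' hlt
  by_contra hcon
  push Not at hcon
  have := monotone_FF h hcon
  rw [FF_qq h hs, FF_qq h hs'] at this
  linarith

lemma qq_continuousAt (h : LogSol w ψ m) {s : ℝ} (hs : s ∈ Set.Ioo (0 : ℝ) 1) :
    ContinuousAt (qq m) s := by
  refine (qq_strictMono h).continuousAt_of_image_mem_nhds (Ioo_mem_nhds hs.1 hs.2) ?_
  have h1 : FF m ⁻¹' (Set.Ioo 0 1) ∈ 𝓝 (qq m s) := by
    refine (continuous_FF h).continuousAt.preimage_mem_nhds ?_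
    rw [FF_qq h hs]
    exact Ioo_mem_nhds hs.1 hs.2
  refine mem_of_superset h1 fun τ hτ => ⟨FF m τ, hτ, qq_FF h hτ⟩

lemma qq_hasDerivAt (h : LogSol w ψ m) {s : ℝ} (hs : s ∈ Set.Ioo (0 : ℝ) 1) :
    HasDerivAt (qq m) (dens w ψ m (qq m s))⁻¹ s := by
  refine (hasDerivAt_FF h (qq m s)).of_local_left_inverse (qq_continuousAt h hs) ?_ ?_
  · refine (dens_pos h (measure_Ioi_pos h ?_)).ne'
    rw [FF_qq h hs]
    exact hs.2
  · filter_upwards [Ioo_mem_nhds hs.1 hs.2] with r hr using FF_qq h hr

lemma qq_dens_pos (h : LogSol w ψ m) {s : ℝ} (hs : s ∈ Set.Ioo (0 : ℝ) 1) :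
    0 < dens w ψ m (qq m s) := by
  refine dens_pos h (measure_Ioi_pos h ?_)
  rw [FF_qq h hs]
  exact hs.2

/-- The uniform law on `(0, 1)`. -/
noncomputable def unif : Measure ℝ := volume.restrict (Set.Ioo 0 1)

lemma prob_unif : IsProbabilityMeasure unif := by
  refine ⟨?_⟩
  unfold unif
  rw [Measure.restrict_apply MeasurableSet.univ, Set.univ_inter, Real.volume_Ioo]
  norm_num

lemma qq_aemeasurable (h : LogSol w ψ m) : AEMeasurable (qq m) unif :=
  aemeasurable_restrict_of_monotoneOn measurableSet_Ioo (qq_strictMono h).monotoneOn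

lemma map_qq (h : LogSol w ψ m) : unif.map (qq m) = m := by
  have := h.prob
  have := prob_unif
  have : IsProbabilityMeasure (unif.map (qq m)) := Measure.isProbabilityMeasure_map (qq_aemeasurable h)
  refine Measure.ext_of_Iic _ _ fun τ => ?_
  rw [Measure.map_apply_of_aemeasurable (qq_aemeasurable h) measurableSet_Iic]
  have h1 : unif (qq m ⁻¹' Set.Iic τ) = unif (Set.Iic (FF m τ)) := by
    refine measure_congr ?_
    have h2 : ∀ᵐ s ∂unif, s ∈ Set.Ioo (0 : ℝ) 1 := ae_restrict_mem measurableSet_Ioo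
    filter_upwards [h2] with s hs
    exact propext (qq_lt_iff h hs τ)
  rw [h1]
  unfold unif
  rw [Measure.restrict_apply measurableSet_Iic]
  have h3 : m (Set.Iic τ) = ENNReal.ofReal (FF m τ) := by
    unfold FF
    rw [ofReal_measureReal]
  rw [h3]
  have h4 : volume (Set.Iic (FF m τ) ∩ Set.Ioo 0 1) = volume (Set.Ioo 0 (FF m τ)) := by
    refine measure_congr ?_
    have h5 : ∀ᵐ s : ℝ, s ≠ FF m τ := by
      rw [ae_iff]
      simp
    filter_upwards [h5] with s hs
    refine propext ?_
    constructor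
    · rintro ⟨ha, hb⟩
      exact ⟨hb.1, lt_of_le_of_ne ha hs⟩
    · rintro ⟨ha, hb⟩
      exact ⟨hb.le, ha, hb.trans_le (FF_le_one h τ)⟩
  rw [h4, Real.volume_Ioo, sub_zero]

/-- The function `b (s) = ∑ ψ_k e^{k q(s)} / E X^k`. -/
noncomputable def bb (ψ : ℕ → ℝ) (m : Measure ℝ) (s : ℝ) : ℝ := BB ψ m (qq m s)

lemma integrable_comp (h : LogSol w ψ m) {g : ℝ → ℝ} (hg : Integrable g m) :
    Integrable (fun s => g (qq m s)) unif := by
  have h1 : Integrable g (unif.map (qq m)) := by rwa [map_qq h]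
  exact (integrable_map_measure h1.aestronglyMeasurable (qq_aemeasurable h)).1 h1

lemma integral_comp (h : LogSol w ψ m) {g : ℝ → ℝ} (hg : Integrable g m) :
    ∫ s, g (qq m s) ∂unif = ∫ y, g y ∂m := by
  have h1 : Integrable g (unif.map (qq m)) := by rwa [map_qq h]
  have h2 := integral_map (qq_aemeasurable h) h1.aestronglyMeasurable
  rw [map_qq h] at h2
  exact h2.symm

lemma dens_qq (h : LogSol w ψ m) {s : ℝ} (hs : s ∈ Set.Ioo (0 : ℝ) 1) :
    dens w ψ m (qq m s) = w * ∫ r in Set.Ioo s 1, (bb ψ m r - 1) := by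
  rw [dens_eq h]
  congr 1
  have := h.prob
  have hint : Integrable (fun y => BB ψ m y - 1) m := (integrable_BB h).sub (integrable_const 1)
  have h1 : ∫ y in Set.Ioi (qq m s), (BB ψ m y - 1) ∂m =
      ∫ r in qq m ⁻¹' (Set.Ioi (qq m s)), (BB ψ m (qq m r) - 1) ∂unif := by
    have h2 : AEStronglyMeasurable (fun y => BB ψ m y - 1) (unif.map (qq m)) := by
      rw [map_qq h]
      exact hint.aestronglyMeasurable
    have h3 := setIntegral_map (measurableSet_Ioi (a := qq m s)) h2 (qq_aemeasurable h)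
    rw [map_qq h] at h3
    exact h3
  rw [h1]
  unfold unif
  rw [Measure.restrict_restrict₀]
  · refine setIntegral_congr_set ?_
    refine Eventually.of_forall fun r => propext ?_
    constructor
    · rintro ⟨h2, h3⟩
      refine ⟨?_, h3.2⟩
      by_contra hcon
      push Not at hcon
      have := (qq_strictMono h).monotoneOn h3 hs hcon
      exact absurd (Set.mem_Ioi.1 h2) (not_lt.2 this)
    · rintro ⟨h2, h3⟩
      have h4 : r ∈ Set.Ioo (0 : ℝ) 1 := ⟨hs.1.trans h2, h3⟩
      exact ⟨qq_strictMono h hs h4 h2, h4⟩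
  · exact (qq_aemeasurable h).nullMeasurableSet_preimage measurableSet_Ioi

lemma exists_Be_lt (h : LogSol w ψ m) {s : ℝ} (hs : s ∈ Set.Ioo (0 : ℝ) 1) :
    ∃ y, qq m s < y ∧ Be ψ m y < ∞ := by
  have h1 : 0 < m (Set.Ioi (qq m s)) := by
    refine measure_Ioi_pos h ?_
    rw [FF_qq h hs]
    exact hs.2
  by_contra hcon
  push Not at hcon
  have h2 : m (Set.Ioi (qq m s)) = 0 := by
    refine measure_mono_null ?_ (Be_ae_lt h)
    intro y hy hlt
    exact absurd hlt (not_lt.2 (hcon y hy))
  exact h1.ne' h2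

lemma coef_nonneg (h : LogSol w ψ m) (k : ℕ) : 0 ≤ ψ k / em m k := by
  rcases (h.psi_nonneg k).eq_or_lt with hk | hk
  · rw [← hk, zero_div]
  · exact (div_pos hk (em_pos h hk)).le

lemma summable_of_Be_lt (h : LogSol w ψ m) {y : ℝ} (hy : Be ψ m y < ∞) :
    Summable fun k => ψ k / em m k * Real.exp (k * y) := by
  have h1 := ENNReal.summable_toReal hy.ne
  refine h1.congr fun k => ?_
  rw [ENNReal.toReal_ofReal (mul_nonneg (coef_nonneg h k) (Real.exp_pos _).le)]

lemma BB_eq_tsum (h : LogSol w ψ m) {y y' : ℝ} (hy : Be ψ m y < ∞) (hle : y' ≤ y) :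
    (Summable fun k => ψ k / em m k * Real.exp (k * y')) ∧
      BB ψ m y' = ∑' k, ψ k / em m k * Real.exp (k * y') := by
  have hs : Summable fun k => ψ k / em m k * Real.exp (k * y') := by
    refine Summable.of_nonneg_of_le (fun k => mul_nonneg (coef_nonneg h k) (Real.exp_pos _).le)
      (fun k => ?_) (summable_of_Be_lt h hy)
    refine mul_le_mul_of_nonneg_left (Real.exp_le_exp.2 ?_) (coef_nonneg h k)
    exact mul_le_mul_of_nonneg_left hle (Nat.cast_nonneg k)
  refine ⟨hs, ?_⟩
  unfold BB Be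
  rw [← ENNReal.ofReal_tsum_of_nonneg
    (fun k => mul_nonneg (coef_nonneg h k) (Real.exp_pos _).le) hs, ENNReal.toReal_ofReal]
  exact tsum_nonneg fun k => mul_nonneg (coef_nonneg h k) (Real.exp_pos _).le

lemma bb_continuousAt (h : LogSol w ψ m) {s : ℝ} (hs : s ∈ Set.Ioo (0 : ℝ) 1) :
    ContinuousAt (bb ψ m) s := by
  obtain ⟨y, hy1, hy2⟩ := exists_Be_lt h hs
  have hcont : ContinuousOn (fun y' => ∑' k, ψ k / em m k * Real.exp (k * y')) (Set.Iio y) := by
    refine continuousOn_tsum (fun k => by fun_prop) (summable_of_Be_lt h hy2) fun k y' hy' => ?_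
    rw [Real.norm_of_nonneg (mul_nonneg (coef_nonneg h k) (Real.exp_pos _).le)]
    refine mul_le_mul_of_nonneg_left (Real.exp_le_exp.2 ?_) (coef_nonneg h k)
    exact mul_le_mul_of_nonneg_left (Set.mem_Iio.1 hy').le (Nat.cast_nonneg k)
  have h1 : ContinuousAt (BB ψ m) (qq m s) := by
    have h2 := hcont.continuousAt (Iio_mem_nhds hy1)
    refine h2.congr ?_
    filter_upwards [Iio_mem_nhds hy1] with y' hy'
    exact (BB_eq_tsum h hy2 (Set.mem_Iio.1 hy').le).2.symm
  exact ContinuousAt.comp h1 (qq_continuousAt h hs)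

/-- The data which we keep from a solution. -/
structure Quant (w : ℝ) (ψ M : ℕ → ℝ) (q b P : ℝ → ℝ) : Prop where
  M_pos : ∀ k, 0 < ψ k → 0 < M k
  deriv : ∀ s ∈ Set.Ioo (0 : ℝ) 1, HasDerivAt q (P s)⁻¹ s
  P_pos : ∀ s ∈ Set.Ioo (0 : ℝ) 1, 0 < P s
  P_eq : ∀ s ∈ Set.Ioo (0 : ℝ) 1, P s = w * ∫ r in Set.Ioo s 1, (b r - 1)
  b_cont : ∀ s ∈ Set.Ioo (0 : ℝ) 1, ContinuousAt b s
  b_int : Integrable b unif
  b_one : ∫ s, b s ∂unif = 1
  b_eq : ∀ s ∈ Set.Ioo (0 : ℝ) 1, HasSum (fun k => ψ k / M k * Real.exp (k * q s)) (b s)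
  e_int : ∀ k, 0 < ψ k → Integrable (fun s => Real.exp (k * q s)) unif
  e_one : ∀ k, 0 < ψ k → ∫ s, Real.exp (k * q s) ∂unif = M k

lemma quant (h : LogSol w ψ m) :
    Quant w ψ (em m) (qq m) (bb ψ m) (fun s => dens w ψ m (qq m s)) where
  M_pos k hk := em_pos h hk
  deriv s hs := qq_hasDerivAt h hs
  P_pos s hs := qq_dens_pos h hs
  P_eq s hs := dens_qq h hs
  b_cont s hs := bb_continuousAt h hs
  b_int := integrable_comp h (integrable_BB h)
  b_one := by
    rw [← integral_BB h]
    exact integral_comp h (integrable_BB h)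
  b_eq s hs := by
    obtain ⟨y, hy1, hy2⟩ := exists_Be_lt h hs
    obtain ⟨h1, h2⟩ := BB_eq_tsum h hy2 hy1.le
    unfold bb
    rw [h2]
    exact h1.hasSum
  e_int k hk := integrable_comp h (h.intg k hk)
  e_one k hk := integral_comp h (h.intg k hk)

end LogSol

/-! ### Comparison of two solutions -/

section Compare

variable {w : ℝ} {ψ M M' : ℕ → ℝ} {q b P q' b' P' : ℝ → ℝ}

lemma unif_ae : ∀ᵐ s ∂unif, s ∈ Set.Ioo (0 : ℝ) 1 := ae_restrict_mem measurableSet_Ioo

lemma arctan_bound (x : ℝ) : ‖Real.arctan x‖ ≤ Real.pi / 2 := by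
  rw [Real.norm_eq_abs, abs_le]
  exact ⟨(Real.neg_pi_div_two_lt_arctan x).le, (Real.arctan_lt_pi_div_two x).le⟩

/-- The function `arctan (q' - q)`. -/
noncomputable def at' (q q' : ℝ → ℝ) (s : ℝ) : ℝ := Real.arctan (q' s - q s)

lemma at_cont (h : Quant w ψ M q b P) (h' : Quant w ψ M' q' b' P') {s : ℝ}
    (hs : s ∈ Set.Ioo (0 : ℝ) 1) : ContinuousAt (at' q q') s :=
  Real.continuous_arctan.continuousAt.comp
    ((h'.deriv s hs).continuousAt.sub (h.deriv s hs).continuousAt)

lemma at_aesm (h : Quant w ψ M q b P) (h' : Quant w ψ M' q' b' P') :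
    AEStronglyMeasurable (at' q q') unif := by
  have h1 : ContinuousOn (at' q q') (Set.Ioo 0 1) := fun s hs =>
    (at_cont h h' hs).continuousWithinAt
  exact h1.aestronglyMeasurable measurableSet_Ioo

lemma at_mul_int (h : Quant w ψ M q b P) (h' : Quant w ψ M' q' b' P') {g : ℝ → ℝ}
    (hg : Integrable g unif) : Integrable (fun s => at' q q' s * g s) unif :=
  hg.bdd_mul (at_aesm h h') (Eventually.of_forall fun _ => arctan_bound _)

/-- The inequality for one exponent. -/
lemma term_nonpos (hψ0 : ψ 0 = 0) (h : Quant w ψ M q b P) (h' : Quant w ψ M' q' b' P') (k : ℕ)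
    (hk : 0 < ψ k) :
    ∫ s, at' q q' s * (Real.exp (k * q s) / M k - Real.exp (k * q' s) / M' k) ∂unif ≤ 0 := by
  have hM := h.M_pos k hk
  have hM' := h'.M_pos k hk
  have hk0 : (0 : ℝ) < k := by
    rcases Nat.eq_zero_or_pos k with h0 | h0
    · rw [h0, hψ0] at hk
      exact absurd hk (lt_irrefl _)
    · exact_mod_cast h0
  set κ : ℝ := (Real.log (M' k) - Real.log (M k)) / k with hκ
  have hi1 : Integrable (fun s => Real.exp (k * q s) / M k) unif := (h.e_int k hk).div_const _
  have hi2 : Integrable (fun s => Real.exp (k * q' s) / M' k) unif := (h'.e_int k hk).div_const _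
  have hi := hi1.sub hi2
  have hz : ∫ s, (Real.exp (k * q s) / M k - Real.exp (k * q' s) / M' k) ∂unif = 0 := by
    rw [integral_sub hi1 hi2, integral_div, integral_div, h.e_one k hk, h'.e_one k hk,
      div_self hM.ne', div_self hM'.ne', sub_self]
  have hia := at_mul_int h h' hi
  have e : ∫ s, at' q q' s * (Real.exp (k * q s) / M k - Real.exp (k * q' s) / M' k) ∂unif =
      ∫ s, (at' q q' s - Real.arctan κ) *
        (Real.exp (k * q s) / M k - Real.exp (k * q' s) / M' k) ∂unif := by
    have h1 := integral_sub hia (hi.const_mul (Real.arctan κ))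
    rw [integral_const_mul] at h1
    have h2 : ∫ s, ((fun s => Real.exp (k * q s) / M k) - fun s => Real.exp (k * q' s) / M' k) s
        ∂unif = 0 := hz
    rw [h2, mul_zero, sub_zero] at h1
    refine h1.symm.trans ?_
    refine integral_congr_ae (Eventually.of_forall fun s => ?_)
    simp only [Pi.sub_apply]
    ring
  rw [e]
  refine integral_nonpos fun s => ?_
  simp only [Pi.zero_apply]
  have h3 : Real.exp (k * q' s) / M' k =
      Real.exp (k * q s) / M k * Real.exp (k * (q' s - q s - κ)) := by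
    have h4 : Real.exp (k * (q' s - q s - κ)) =
        Real.exp (k * q' s) / Real.exp (k * q s) * (M k / M' k) := by
      have h5 : (k : ℝ) * κ = Real.log (M' k) - Real.log (M k) := by
        rw [hκ]
        field_simp
      have h6 : (k : ℝ) * (q' s - q s - κ) =
          k * q' s - k * q s + (Real.log (M k) - Real.log (M' k)) := by
        have : (k : ℝ) * (q' s - q s - κ) = k * q' s - k * q s - k * κ := by ring
        rw [this, h5]
        ring
      rw [h6, Real.exp_add, Real.exp_sub, Real.exp_sub, Real.exp_log hM, Real.exp_log hM']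
    rw [h4]
    have := (Real.exp_pos (k * q s)).ne'
    field_simp
  have h7 : 0 < Real.exp (k * q s) / M k := div_pos (Real.exp_pos _) hM
  rcases le_total κ (q' s - q s) with hle | hle
  · have h8 : Real.arctan κ ≤ at' q q' s := Real.arctan_strictMono.monotone hle
    have h9 : 1 ≤ Real.exp (k * (q' s - q s - κ)) :=
      Real.one_le_exp (mul_nonneg hk0.le (by linarith))
    rw [h3]
    refine mul_nonpos_of_nonneg_of_nonpos (by linarith) ?_
    nlinarith
  · have h8 : at' q q' s ≤ Real.arctan κ := Real.arctan_strictMono.monotone hle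
    have h9 : Real.exp (k * (q' s - q s - κ)) ≤ 1 :=
      Real.exp_le_one_iff.2 (mul_nonpos_of_nonneg_of_nonpos hk0.le (by linarith))
    rw [h3]
    refine mul_nonpos_of_nonpos_of_nonneg (by linarith) ?_
    nlinarith

/-- The inequality for the sum. -/
lemma sum_nonpos (hψ0 : ψ 0 = 0) (hψ : ∀ k, 0 ≤ ψ k) (hψ1 : Summable ψ)
    (h : Quant w ψ M q b P) (h' : Quant w ψ M' q' b' P') :
    ∫ s, at' q q' s * (b s - b' s) ∂unif ≤ 0 := by
  set F : ℕ → ℝ → ℝ := fun k s =>
    at' q q' s * (ψ k / M k * Real.exp (k * q s) - ψ k / M' k * Real.exp (k * q' s)) with hF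
  have hzero : ∀ k, ψ k = 0 → F k = fun _ => 0 := by
    intro k hk
    funext s
    rw [hF]
    simp only [hk, zero_div, zero_mul, sub_self, mul_zero]
  have hi : ∀ k, 0 < ψ k → Integrable (fun s => ψ k / M k * Real.exp (k * q s)) unif := fun k hk =>
    (h.e_int k hk).const_mul _
  have hi' : ∀ k, 0 < ψ k → Integrable (fun s => ψ k / M' k * Real.exp (k * q' s)) unif :=
    fun k hk => (h'.e_int k hk).const_mul _
  have hFint : ∀ k, Integrable (F k) unif := by
    intro k
    rcases (hψ k).eq_or_lt with hk | hk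
    · rw [hzero k hk.symm]
      exact integrable_zero _ _ _
    · exact at_mul_int h h' ((hi k hk).sub (hi' k hk))
  have hnorm : ∀ k, ∫ s, ‖F k s‖ ∂unif ≤ Real.pi * ψ k := by
    intro k
    rcases (hψ k).eq_or_lt with hk | hk
    · rw [hzero k hk.symm, ← hk]
      simp
    · have hM := h.M_pos k hk
      have hM' := h'.M_pos k hk
      calc ∫ s, ‖F k s‖ ∂unif ≤ ∫ s, (Real.pi / 2) * (ψ k / M k * Real.exp (k * q s) +
            ψ k / M' k * Real.exp (k * q' s)) ∂unif := by
            refine integral_mono (hFint k).norm (((hi k hk).add (hi' k hk)).const_mul _)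
              fun s => ?_
            simp only [hF]
            rw [norm_mul]
            refine mul_le_mul (arctan_bound _) ?_ (norm_nonneg _) (by positivity)
            refine (norm_sub_le _ _).trans (le_of_eq ?_)
            rw [Real.norm_of_nonneg (by positivity), Real.norm_of_nonneg (by positivity)]
        _ = Real.pi * ψ k := by
            rw [integral_const_mul, integral_add (hi k hk) (hi' k hk), integral_const_mul,
              integral_const_mul, h.e_one k hk, h'.e_one k hk]
            field_simp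
            ring
  have hsum : Summable fun k => ∫ s, ‖F k s‖ ∂unif :=
    Summable.of_nonneg_of_le (fun k => integral_nonneg fun s => norm_nonneg _) hnorm
      (hψ1.mul_left _)
  have key := hasSum_integral_of_summable_integral_norm hFint hsum
  have e : ∫ s, (∑' k, F k s) ∂unif = ∫ s, at' q q' s * (b s - b' s) ∂unif := by
    refine integral_congr_ae ?_
    filter_upwards [unif_ae] with s hs
    have h1 := ((h.b_eq s hs).sub (h'.b_eq s hs)).mul_left (at' q q' s)
    exact h1.tsum_eq
  rw [← e, ← key.tsum_eq]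
  refine tsum_nonpos fun k => ?_
  rcases (hψ k).eq_or_lt with hk | hk
  · rw [hzero k hk.symm]
    simp
  · have h1 := term_nonpos hψ0 h h' k hk
    have h2 : ∫ s, F k s ∂unif = ψ k *
        ∫ s, at' q q' s * (Real.exp (k * q s) / M k - Real.exp (k * q' s) / M' k) ∂unif := by
      rw [← integral_const_mul]
      refine integral_congr_ae (Eventually.of_forall fun s => ?_)
      simp only [hF]
      ring
    rw [h2]
    exact mul_nonpos_of_nonneg_of_nonpos hk.le h1

lemma intervalIntegrable_of_unif {g : ℝ → ℝ} (hg : Integrable g unif) {a b : ℝ}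
    (ha : a ∈ Set.Icc (0 : ℝ) 1) (hb : b ∈ Set.Icc (0 : ℝ) 1) : IntervalIntegrable g volume a b := by
  have h1 : IntervalIntegrable g volume 0 1 :=
    (intervalIntegrable_iff_integrableOn_Ioo_of_le zero_le_one).2 hg
  refine h1.mono_set ?_
  rw [Set.uIcc_of_le zero_le_one]
  exact Set.uIcc_subset_Icc ha hb

lemma integral_unif (g : ℝ → ℝ) : ∫ s, g s ∂unif = ∫ s in (0 : ℝ)..1, g s := by
  rw [intervalIntegral.integral_of_le zero_le_one, integral_Ioc_eq_integral_Ioo]
  rfl

/-- The function `K`. -/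
noncomputable def KK (w : ℝ) (q q' D : ℝ → ℝ) (s : ℝ) : ℝ :=
  at' q q' s * (-(w * ∫ r in (0 : ℝ)..s, D r)) + w * ∫ r in (0 : ℝ)..s, at' q q' r * D r

/-- If two solutions satisfy the hypotheses, then `P = P'`. -/
lemma P_eq_P (hw : 0 < w) (hψ0 : ψ 0 = 0) (hψ : ∀ k, 0 ≤ ψ k) (hψ1 : Summable ψ)
    (h : Quant w ψ M q b P) (h' : Quant w ψ M' q' b' P') :
    ∀ s ∈ Set.Ioo (0 : ℝ) 1, P s = P' s := by
  set D : ℝ → ℝ := fun s => b s - b' s with hD
  have := prob_unif
  have hDint : Integrable D unif := h.b_int.sub h'.b_int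
  have haD : Integrable (fun s => at' q q' s * D s) unif := at_mul_int h h' hDint
  have mem0 : (0 : ℝ) ∈ Set.Icc (0 : ℝ) 1 := ⟨le_rfl, zero_le_one⟩
  have mem1 : (1 : ℝ) ∈ Set.Icc (0 : ℝ) 1 := ⟨zero_le_one, le_rfl⟩
  have hDtot : ∫ r in (0 : ℝ)..1, D r = 0 := by
    rw [← integral_unif, hD, integral_sub h.b_int h'.b_int, h.b_one, h'.b_one, sub_self]
  -- `P - P'`
  have hG : ∀ s ∈ Set.Ioo (0 : ℝ) 1, P s - P' s = -(w * ∫ r in (0 : ℝ)..s, D r) := by
    intro s hs
    have hsI : s ∈ Set.Icc (0 : ℝ) 1 := Set.Ioo_subset_Icc_self hs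
    have e : ∀ {c : ℝ → ℝ}, Integrable c unif →
        ∫ r in Set.Ioo s 1, (c r - 1) = ∫ r in s..1, (c r - 1) := by
      intro c _
      rw [intervalIntegral.integral_of_le hs.2.le, integral_Ioc_eq_integral_Ioo]
    have i1 : IntervalIntegrable (fun r => b r - 1) volume s 1 :=
      (intervalIntegrable_of_unif h.b_int hsI mem1).sub intervalIntegrable_const
    have i2 : IntervalIntegrable (fun r => b' r - 1) volume s 1 :=
      (intervalIntegrable_of_unif h'.b_int hsI mem1).sub intervalIntegrable_const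
    rw [h.P_eq s hs, h'.P_eq s hs, e h.b_int, e h'.b_int, ← mul_sub,
      ← intervalIntegral.integral_sub i1 i2]
    have e2 : (fun r => b r - 1 - (b' r - 1)) = D := by
      funext r
      rw [hD]
      ring
    rw [e2]
    have e3 := intervalIntegral.integral_add_adjacent_intervals
      (intervalIntegrable_of_unif hDint mem0 hsI) (intervalIntegrable_of_unif hDint hsI mem1)
    rw [hDtot] at e3
    have e4 : ∫ r in s..1, D r = - ∫ r in (0 : ℝ)..s, D r := by linarith
    rw [e4]
    ring
  have hDcont : ∀ s ∈ Set.Ioo (0 : ℝ) 1, ContinuousAt D s := fun s hs =>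
    (h.b_cont s hs).sub (h'.b_cont s hs)
  have hprim : ∀ {g : ℝ → ℝ}, Integrable g unif → (∀ s ∈ Set.Ioo (0 : ℝ) 1, ContinuousAt g s) →
      ∀ s ∈ Set.Ioo (0 : ℝ) 1, HasDerivAt (fun u => ∫ r in (0 : ℝ)..u, g r) (g s) s := by
    intro g hg hc s hs
    have h1 : StronglyMeasurableAtFilter g (𝓝 s) volume := by
      refine ContinuousOn.stronglyMeasurableAtFilter isOpen_Ioo (s := Set.Ioo 0 1)
        (fun r hr => (hc r hr).continuousWithinAt) s hs
    exact intervalIntegral.integral_hasDerivAt_right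
      (intervalIntegrable_of_unif hg mem0 (Set.Ioo_subset_Icc_self hs)) h1 (hc s hs)
  have hderiv : ∀ s ∈ Set.Ioo (0 : ℝ) 1, HasDerivAt (KK w q q' D)
      ((P s - P' s) ^ 2 / (P s * P' s * (1 + (q' s - q s) ^ 2))) s := by
    intro s hs
    have hPs := h.P_pos s hs
    have hPs' := h'.P_pos s hs
    have d1 : HasDerivAt (at' q q')
        (1 / (1 + (q' s - q s) ^ 2) * ((P' s)⁻¹ - (P s)⁻¹)) s :=
      HasDerivAt.comp s (Real.hasDerivAt_arctan (q' s - q s))
        ((h'.deriv s hs).sub (h.deriv s hs))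
    have d2 := ((hprim hDint hDcont s hs).const_mul w).neg
    have d3 := (hprim haD (fun r hr => (at_cont h h' hr).mul (hDcont r hr)) s hs).const_mul w
    have d4 := (d1.mul d2).add d3
    have e : KK w q q' D = (at' q q' * fun u => -(w * ∫ r in (0 : ℝ)..u, D r)) +
        fun u => w * ∫ r in (0 : ℝ)..u, at' q q' r * D r := by
      funext u
      rfl
    rw [e]
    refine d4.congr_deriv ?_
    have hG' : (-fun y => w * ∫ r in (0 : ℝ)..y, D r) s = P s - P' s := (hG s hs).symm
    rw [hG']
    have h1 : (0 : ℝ) < 1 + (q' s - q s) ^ 2 := by positivity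
    field_simp
    ring
  have hmono : MonotoneOn (KK w q q' D) (Set.Ioo 0 1) := by
    refine monotoneOn_of_deriv_nonneg (convex_Ioo 0 1)
      (fun s hs => (hderiv s hs).continuousAt.continuousWithinAt)
      (fun s hs => ?_) fun s hs => ?_
    · rw [interior_Ioo] at hs
      exact (hderiv s hs).differentiableAt.differentiableWithinAt
    · rw [interior_Ioo] at hs
      rw [(hderiv s hs).deriv]
      have hPs := h.P_pos s hs
      have hPs' := h'.P_pos s hs
      positivity
  -- the primitives are continuous on `[0, 1]`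
  have hpc : ∀ {g : ℝ → ℝ}, Integrable g unif →
      ContinuousOn (fun u => ∫ r in (0 : ℝ)..u, g r) (Set.Icc 0 1) := by
    intro g hg
    have h1 := intervalIntegral.continuousOn_primitive_interval' (a := (0 : ℝ)) (b₁ := (0 : ℝ))
      (b₂ := (1 : ℝ)) (intervalIntegrable_of_unif hg mem0 mem1) (by
        rw [Set.uIcc_of_le zero_le_one]
        exact mem0)
    rwa [Set.uIcc_of_le zero_le_one] at h1
  have hsq : ∀ (l : Filter ℝ) (c : ℝ), Tendsto (fun u => ∫ r in (0 : ℝ)..u, D r) l (𝓝 0) →
      Tendsto (fun u => ∫ r in (0 : ℝ)..u, at' q q' r * D r) l (𝓝 c) →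
      Tendsto (KK w q q' D) l (𝓝 (w * c)) := by
    intro l c h1 h2
    have h3 : Tendsto (fun u => at' q q' u * (-(w * ∫ r in (0 : ℝ)..u, D r))) l (𝓝 0) := by
      have h4 : Tendsto (fun u => -(w * ∫ r in (0 : ℝ)..u, D r)) l (𝓝 0) := by
        have := (h1.const_mul w).neg
        simpa using this
      refine squeeze_zero_norm (a := fun u => Real.pi / 2 * ‖-(w * ∫ r in (0 : ℝ)..u, D r)‖)
        (fun u => ?_) ?_
      · rw [norm_mul]
        exact mul_le_mul_of_nonneg_right (arctan_bound _) (norm_nonneg _)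
      · have := h4.norm.const_mul (Real.pi / 2)
        simpa using this
    have h5 := h3.add (h2.const_mul w)
    rw [zero_add] at h5
    exact h5
  have hK0 : Tendsto (KK w q q' D) (𝓝[>] 0) (𝓝 0) := by
    have h1 : ∀ {g : ℝ → ℝ}, Integrable g unif →
        Tendsto (fun u => ∫ r in (0 : ℝ)..u, g r) (𝓝[>] 0) (𝓝 0) := by
      intro g hg
      have h2 := (hpc hg 0 mem0).tendsto
      rw [intervalIntegral.integral_same] at h2
      exact h2.mono_left (nhdsWithin_le_of_mem (Icc_mem_nhdsGT zero_lt_one))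
    have := hsq _ 0 (h1 hDint) (h1 haD)
    rwa [mul_zero] at this
  have hK1 : Tendsto (KK w q q' D) (𝓝[<] 1) (𝓝 (w * ∫ r in (0 : ℝ)..1, at' q q' r * D r)) := by
    have h1 : ∀ {g : ℝ → ℝ}, Integrable g unif →
        Tendsto (fun u => ∫ r in (0 : ℝ)..u, g r) (𝓝[<] 1) (𝓝 (∫ r in (0 : ℝ)..1, g r)) := by
      intro g hg
      exact (hpc hg 1 mem1).tendsto.mono_left
        (nhdsWithin_le_of_mem (Icc_mem_nhdsLT zero_lt_one))
    have h2 := h1 hDint
    rw [hDtot] at h2
    exact hsq _ _ h2 (h1 haD)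
  have hneg : w * ∫ r in (0 : ℝ)..1, at' q q' r * D r ≤ 0 := by
    rw [← integral_unif]
    exact mul_nonpos_of_nonneg_of_nonpos hw.le (sum_nonpos hψ0 hψ hψ1 h h')
  have hKzero : ∀ s ∈ Set.Ioo (0 : ℝ) 1, KK w q q' D s = 0 := by
    intro s hs
    apply le_antisymm
    · refine (ge_of_tendsto hK1 ?_).trans hneg
      filter_upwards [Ioo_mem_nhdsLT hs.2] with r hr
      exact hmono hs ⟨hs.1.trans hr.1, hr.2⟩ hr.1.le
    · refine le_of_tendsto hK0 ?_
      filter_upwards [Ioo_mem_nhdsGT hs.1] with r hr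
      exact hmono ⟨hr.1, hr.2.trans hs.2⟩ hs hr.2.le
  intro s hs
  have hPs := h.P_pos s hs
  have hPs' := h'.P_pos s hs
  have h1 : HasDerivAt (KK w q q' D) 0 s := by
    refine (hasDerivAt_const s (0 : ℝ)).congr_of_eventuallyEq ?_
    filter_upwards [Ioo_mem_nhds hs.1 hs.2] with r hr using hKzero r hr
  have h2 := (hderiv s hs).unique h1
  have h3 : (P s - P' s) ^ 2 = 0 := by
    rcases div_eq_zero_iff.1 h2 with h4 | h4
    · exact h4
    · exfalso
      have : 0 < P s * P' s * (1 + (q' s - q s) ^ 2) := by positivity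
      exact this.ne' h4
  have := pow_eq_zero_iff (two_ne_zero) |>.1 h3
  linarith

/-- The difference of the quantile functions is constant. -/
lemma quant_diff (hw : 0 < w) (hψ0 : ψ 0 = 0) (hψ : ∀ k, 0 ≤ ψ k) (hψ1 : Summable ψ)
    (h : Quant w ψ M q b P) (h' : Quant w ψ M' q' b' P') :
    ∃ c : ℝ, ∀ s ∈ Set.Ioo (0 : ℝ) 1, q' s = q s + c := by
  have hP := P_eq_P hw hψ0 hψ hψ1 h h'
  have hd : ∀ s ∈ Set.Ioo (0 : ℝ) 1, HasDerivAt (fun s => q' s - q s) 0 s := by
    intro s hs
    have := (h'.deriv s hs).sub (h.deriv s hs)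
    rw [hP s hs, sub_self] at this
    exact this
  have hhalf : (1 / 2 : ℝ) ∈ Set.Ioo (0 : ℝ) 1 := by constructor <;> norm_num
  refine ⟨q' (1 / 2) - q (1 / 2), fun s hs => ?_⟩
  have h1 := isOpen_Ioo.is_const_of_deriv_eq_zero (f := fun s => q' s - q s)
    (isPreconnected_Ioo (a := (0 : ℝ)) (b := 1))
    (fun s hs => (hd s hs).differentiableAt.differentiableWithinAt)
    (fun s hs => (hd s hs).deriv) hs hhalf
  have h2 : q' s - q s = q' (1 / 2) - q (1 / 2) := h1
  linarith

end Compare

/-- Uniqueness up to translation for the logarithmic form. -/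
lemma logSol_unique {w : ℝ} {ψ : ℕ → ℝ} {m m' : Measure ℝ} (h : LogSol w ψ m)
    (h' : LogSol w ψ m') : ∃ c : ℝ, m' = m.map fun y => y + c := by
  obtain ⟨c, hc⟩ := quant_diff h.w_pos h.psi_zero h.psi_nonneg h.psi_sum.summable (quant h)
    (quant h')
  refine ⟨c, ?_⟩
  rw [← map_qq h', ← map_qq h, AEMeasurable.map_map_of_aemeasurable (by fun_prop)
    (qq_aemeasurable h)]
  refine Measure.map_congr ?_
  filter_upwards [unif_ae] with s hs
  exact hc s hs

/-! ### From the fixed point equation to its logarithmic form -/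

lemma betaLaw_tail {w : ℝ} (hw : 0 < w) (τ : ℝ) {y : ℝ} (hy : 0 < y) :
    betaLaw w {v | Real.exp τ < v * y} = ENNReal.ofReal (gg (w * (τ - Real.log y))) := by
  have hm : MeasurableSet {v : ℝ | Real.exp τ < v * y} :=
    measurableSet_lt measurable_const (by fun_prop)
  unfold betaLaw
  rw [withDensity_apply _ hm, Measure.restrict_restrict hm]
  have hset : {v : ℝ | Real.exp τ < v * y} ∩ Set.Ioo 0 1 = Set.Ioo (Real.exp τ / y) 1 := by
    ext v
    simp only [Set.mem_inter_iff, Set.mem_ofPred_eq, Set.mem_Ioo]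
    rw [div_lt_iff₀ hy]
    constructor
    · rintro ⟨h1, _, h3⟩
      exact ⟨h1, h3⟩
    · rintro ⟨h1, h3⟩
      refine ⟨h1, ?_, h3⟩
      have := (Real.exp_pos τ).trans h1
      exact (mul_pos_iff_of_pos_right hy).1 this
  rw [hset]
  set a := Real.exp τ / y with ha
  have ha0 : 0 < a := div_pos (Real.exp_pos _) hy
  have hlog : Real.log a = τ - Real.log y := by
    rw [ha, Real.log_div (Real.exp_pos _).ne' hy.ne', Real.log_exp]
  rw [← hlog]
  rcases le_or_gt 1 a with h1 | h1
  · rw [Set.Ioo_eq_empty (not_lt.2 h1), Measure.restrict_empty, lintegral_zero_measure,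
      gg_of_nonneg (mul_nonneg hw.le (Real.log_nonneg h1)), ENNReal.ofReal_zero]
  · rw [gg_of_neg (mul_nonpos_of_nonneg_of_nonpos hw.le (Real.log_nonpos ha0.le h1.le))]
    have hint : IntervalIntegrable (fun v : ℝ => w * v ^ (w - 1)) volume a 1 :=
      (intervalIntegral.intervalIntegrable_rpow' (by linarith)).const_mul w
    have hon : IntegrableOn (fun v : ℝ => w * v ^ (w - 1)) (Set.Ioo a 1) :=
      (intervalIntegrable_iff_integrableOn_Ioo_of_le h1.le).1 hint
    rw [← ofReal_integral_eq_lintegral_ofReal hon]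
    · congr 1
      rw [← integral_Ioc_eq_integral_Ioo, ← intervalIntegral.integral_of_le h1.le,
        intervalIntegral.integral_const_mul, integral_rpow (Or.inl (by linarith)),
        sub_add_cancel, Real.one_rpow]
      have : a ^ w = Real.exp (w * Real.log a) := by
        rw [Real.rpow_def_of_pos ha0, mul_comm]
      rw [this]
      field_simp
    · filter_upwards [ae_restrict_mem measurableSet_Ioo] with v hv
      have : 0 < v := ha0.trans hv.1
      positivity

section Transfer

variable {w : ℝ} {ψ : ℕ → ℝ} {μ : Measure ℝ}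

lemma ae_pos (h : IsSolution w ψ μ) : ∀ᵐ x ∂μ, 0 < x := by
  rw [ae_iff]
  have : {x : ℝ | ¬ 0 < x} = Set.Iic 0 := by
    ext x
    simp
  rw [this]
  exact h.pos

lemma em_map (h : IsSolution w ψ μ) (k : ℕ) : em (μ.map Real.log) k = moment μ k := by
  unfold em moment
  rw [integral_map Real.measurable_log.aemeasurable (by fun_prop)]
  refine integral_congr_ae ?_
  filter_upwards [ae_pos h] with x hx
  rw [Real.exp_nat_mul, Real.exp_log hx]

lemma logSol (hw : 0 < w) (hψ0 : ψ 0 = 0) (hψ : ∀ k, 0 ≤ ψ k) (hψ1 : HasSum ψ 1)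
    (h : IsSolution w ψ μ) : LogSol w ψ (μ.map Real.log) where
  prob := by
    have := h.prob
    exact Measure.isProbabilityMeasure_map Real.measurable_log.aemeasurable
  intg k hk := by
    refine (integrable_map_measure (by fun_prop) Real.measurable_log.aemeasurable).2 ?_
    refine (h.moments k hk).congr ?_
    filter_upwards [ae_pos h] with x hx
    rw [Function.comp_apply, Real.exp_nat_mul, Real.exp_log hx]
  tail τ := by
    have := h.prob
    have h1 : μ.map Real.log (Set.Ioi τ) = μ (Set.Ioi (Real.exp τ)) := by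
      rw [Measure.map_apply Real.measurable_log measurableSet_Ioi]
      refine measure_congr ?_
      filter_upwards [ae_pos h] with x hx
      exact propext (Real.lt_log_iff_exp_lt hx)
    rw [h1]
    have hm2 : Measurable fun p : ℝ × ℝ => p.1 * p.2 := by fun_prop
    have h2 : μ (Set.Ioi (Real.exp τ)) =
        ∫⁻ y, betaLaw w {v | Real.exp τ < v * y} ∂(powerBias ψ μ) := by
      conv_lhs => rw [h.fixed]
      rw [Measure.map_apply hm2 measurableSet_Ioi]
      have hs1 : SFinite (betaLaw w) := by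
        unfold betaLaw
        infer_instance
      have hs2 : SFinite (powerBias ψ μ) := by
        unfold powerBias
        infer_instance
      rw [Measure.prod_apply_symm (hm2 measurableSet_Ioi)]
      rfl
    have hgm : Measurable fun y : ℝ => betaLaw w {v | Real.exp τ < v * y} := by
      have hs1 : SFinite (betaLaw w) := by
        unfold betaLaw
        infer_instance
      have h3 : MeasurableSet {p : ℝ × ℝ | Real.exp τ < p.1 * p.2} :=
        measurableSet_lt measurable_const hm2
      exact measurable_measure_prodMk_right h3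
    rw [h2, lintegral_map (by
      refine Measurable.mul ?_ (measurable_Be _ _)
      exact (continuous_gg.measurable.comp (by fun_prop)).ennreal_ofReal) Real.measurable_log]
    unfold powerBias
    rw [lintegral_sum_measure]
    have h3 : ∀ k, ∫⁻ y, betaLaw w {v | Real.exp τ < v * y}
        ∂(ENNReal.ofReal (ψ k / moment μ k) • μ.withDensity fun x => ENNReal.ofReal (x ^ k)) =
        ∫⁻ x, ENNReal.ofReal (gg (w * (τ - Real.log x))) *
          ENNReal.ofReal (ψ k / em (μ.map Real.log) k * Real.exp (k * Real.log x)) ∂μ := by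
      intro k
      rw [lintegral_smul_measure, lintegral_withDensity_eq_lintegral_mul _ (by fun_prop) hgm,
        smul_eq_mul, ← lintegral_const_mul _ (by
          refine Measurable.mul (by fun_prop) hgm)]
      refine lintegral_congr_ae ?_
      filter_upwards [ae_pos h] with x hx
      rw [Pi.mul_apply, betaLaw_tail hw τ hx, em_map h, Real.exp_nat_mul, Real.exp_log hx]
      have h4 : ENNReal.ofReal (ψ k / moment μ k * x ^ k) =
          ENNReal.ofReal (ψ k / moment μ k) * ENNReal.ofReal (x ^ k) :=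
        ENNReal.ofReal_mul' (by positivity)
      rw [h4]
      ring
    simp only [h3]
    rw [← lintegral_tsum]
    · refine lintegral_congr fun x => ?_
      unfold Be
      rw [ENNReal.tsum_mul_left]
    · intro k
      have hl : Measurable fun x : ℝ => w * (τ - Real.log x) :=
        (measurable_const.sub Real.measurable_log).const_mul w
      have hA : Measurable fun x : ℝ => ENNReal.ofReal (gg (w * (τ - Real.log x))) :=
        (continuous_gg.measurable.comp hl).ennreal_ofReal
      have hB : Measurable fun x : ℝ =>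
          ENNReal.ofReal (ψ k / em (μ.map Real.log) k * Real.exp (k * Real.log x)) := by
        fun_prop
      exact (hA.mul hB).aemeasurable
  w_pos := hw
  psi_zero := hψ0
  psi_nonneg := hψ
  psi_sum := hψ1

end Transfer

/-- **Uniqueness up to scaling.** For `w > 0` and every probability distribution `ψ` on the positive
integers, any two solutions of the fixed point equation are scaled versions of each other. -/
theorem result (w : ℝ) (hw : 0 < w) (ψ : ℕ → ℝ) (hψ0 : ψ 0 = 0) (hψ : ∀ k, 0 ≤ ψ k)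
    (hψ1 : HasSum ψ 1) (μ ν : Measure ℝ) (hμ : IsSolution w ψ μ) (hν : IsSolution w ψ ν) :
    ∃ c : ℝ, 0 < c ∧ ν = μ.map fun x => c * x := by
  obtain ⟨c, hc⟩ := logSol_unique (logSol hw hψ0 hψ hψ1 hμ) (logSol hw hψ0 hψ hψ1 hν)
  refine ⟨Real.exp c, Real.exp_pos c, ?_⟩
  have h1 : ν = (ν.map Real.log).map Real.exp := by
    rw [Measure.map_map Real.measurable_exp Real.measurable_log]
    conv_lhs => rw [← Measure.map_id (μ := ν)]
    refine Measure.map_congr ?_
    filter_upwards [ae_pos hν] with x hx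
    rw [Function.comp_apply, Real.exp_log hx]
    rfl
  have hm : Measurable fun y : ℝ => y + c := by fun_prop
  rw [h1, hc, Measure.map_map hm Real.measurable_log,
    Measure.map_map Real.measurable_exp (hm.comp Real.measurable_log)]
  refine Measure.map_congr ?_
  filter_upwards [ae_pos hμ] with x hx
  rw [Function.comp_apply, Function.comp_apply, Real.exp_add, Real.exp_log hx, mul_comm]

end Pool.Agent.Results.MP_ec0ea5_pr.UniqueUpToScaling
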